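import Pool.Agent.H25.CLE.Main

/-! # MP_5d7c93_pr, Q1: the law of the CLE carpet distance has no atoms

`P` : law of the (simple, non-nested) conformal loop ensemble in the upper half plane, `IsCLE P` : Sheffield-Werner axioms.
`Γ : Geometry P d d'` : the carpet metric and the carpet measure, given by their axioms.
`f : HP → U` conformal, `push f HP` : image configuration, a loop ensemble in `U`.
`G`, `x`, `y` random: `G` is the loop ensemble in `U` and, given `G`, the points `x`, `y` are independent samples
of the carpet measure rescaled by its total mass. Then the distance of `x` and `y` is equal to `a` with probability 0. -/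

set_option autoImplicit false

namespace Pool.Agent.Results.MP_5d7c93_pr.NoAtoms

open MeasureTheory ProbabilityTheory Pool.H25.CLE

theorem result {P : Measure Conf} (hP : IsCLE P) {d d' : ℝ} (Γ : Geometry P d d')
    {U : Set ℂ} {f : ℂ → ℂ} (hf : IsConf f HP U)
    {Ω : Type} [MeasurableSpace Ω] (Q : Measure Ω) [IsProbabilityMeasure Q]
    (G : Ω → Conf) (x y : Ω → ℂ) (hm : AEMeasurable (fun ω => (G ω, x ω, y ω)) Q)
    (hlaw : Q.map (fun ω => (G ω, x ω, y ω)) = (P.map (push f HP)) ⊗ₘ (Γ.sample U ×ₖ Γ.sample U)) (a : ℝ) :
    Q {ω | Γ.dist U (G ω) (x ω) (y ω) = a} = 0 :=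
  no_atoms hP Γ hf Q G x y hm hlaw a

end Pool.Agent.Results.MP_5d7c93_pr.NoAtoms
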